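import Mathlib
import Pool.Agent.Q155.AL.Mul
import Pool.Agent.Q155.AL.Meas
import Pool.Agent.Q283.NK.G1

/-!
# Curves over the cubics `X³ + Y³ = A`: one algorithm, and its law inside almost every integer

Let `C_A : X³ + Y³ = A`. A polynomial `f(x, y)` with integer coefficients LIES OVER `C_A` if there is a rational
map `[P : Q : R]` from the curve `f = 0` to `C_A` that takes no component of the curve into the lines
`X Y Z (X - Y) = 0`: polynomials `P`, `Q`, `R` with integer coefficients such that `f` divides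
`P³ + Q³ - A R³` and only constants divide both `f` and `P Q R (P - Q)`. It LIES UNDER `C_A` if there is a
nonconstant rational map `[U : V : W]` from `C_A` to the curve `f = 0`.

(The plane models of all the curves of genus one whose Jacobian is isogenous to `C_A`, with rational points or
without, and of the curves of higher genus with a nonconstant map to `C_A`, lie over `C_A`; the plane models of
the elliptic curves isogenous to `C_A` also lie under `C_A`. This general remark is not proved here; proved are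
the examples `x³ + y³ = A` and `y² = x³ - 432 A²`, which lie over and under `C_A`, and the diagonal cubics
`a x³ + b y³ = c` with `a b c = A m³`, `m ≠ 0`, which lie over `C_A` and have in general no rational points.)

A number `n` is a BASE if it is cube-free, prime to `3`, not `±1` modulo `9`, with exactly one prime divisor `2`
modulo `3`; a base `n` is GOOD if `E_n(ℚ)` is finite and `Ш(E_n/ℚ)[3^∞] = 0` for the curve
`E_n : y² + n y = x³`, which is `3`-isogenous to `C_n`. An integer `A ≠ 0` is SOLVED if `|A|` is a cube or a good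
base times a cube.

THERE IS ONE ALGORITHM `φ`, a recursive function from the integer polynomials in two variables to
`{true, false}` which may be undefined for some polynomials, with the following properties.

* (Correctness.) If `φ(f)` is defined, then it says whether `f(x, y) = 0` has infinitely many rational solutions.
* (Negative answers.) For every SOLVED `A` and EVERY `f` over `C_A` the value `φ(f)` is defined (and `false`).
* (Positive answers.) For every `A ≠ 0` for which `x³ + y³ = A` has infinitely many rational solutions and EVERY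
  `f` under `C_A` the value `φ(f)` is defined (and `true`).
* (Components.) If `φ(f)` and `φ(g)` are `false`, then `φ(f g)` is `false`; if `φ(f)` is `true`, then `φ(f g)` is
  `true` for all `g`. So `φ` decides all the curves whose components lie over some `C_A` with solved `A`
  (different `A` for different components), and all the curves one of whose components lies under some `C_A`
  with infinitely many rational points.
* (The law.) For a positive integer `D` let `D'` be the product of its prime divisors `1` modulo `3`. THERE IS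
  ONE SET `S` of positive integers, of NATURAL DENSITY `1` (and also of relative density `1` in the thin set of
  the split numbers, `D = D'`) such that the following holds for all numbers `n` and for EVERY finite family of
  forms `F_j(d) = N_j d_1 ^ e_j1 ⋯ d_n ^ e_jn` (`j = 1, ..., M`; `N_j` a base, `e_j` exponents `0, 1, 2`, not all
  `0`) without the trivial relations `F_j = F_l` and `F_j F_l = cube` (`j ≠ l`), for every `ε > 0`, all large `D`
  in `S` and all residue classes `a = (a_1, ..., a_n)` modulo `9` with no `F_j(a)` equal to `±1` modulo `9`: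
  let `d = (d_1, ..., d_n)` run through the tuples of divisors `d_i ≡ a_i` modulo `9` of `D'²` (if there are
  any, they are at least the share `3 ^ (-n)` of all tuples; `a = (1, ..., 1)` always has some).
  (1) For every set `B` of indices the share of the `d` for which exactly the numbers `F_j(d)` with `j` in `B`
      are solved is within `ε` of `c ^ |B| (1 - c) ^ (M - |B|)`, `c = ∏_{i ≥ 1} (1 - 3^{-i})`,
      `0.56 < c < 0.5602`. In particular all the curves over any of the `C_A`, `A = F_j(d)`, `j` in `B`, are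
      decided by `φ` for at least the share `c ^ |B| - ε` of the `d`.
  (2) For `M > 0` and `η > 0` the share of the `d` for which the frequency of the solved numbers among the
      `F_j(d)` differs from `c` by `η` or more is at most `2 exp (- η² M / 4) + ε`.
* (The natural order.) Let `m_1, ..., m_M` be different numbers `1` modulo `9`, cube-free, all of whose prime
  divisors are `1` modulo `3`. Among the squarefree bases `D ≤ X` prime to the `m_k` (at least
  `k X / sqrt (log X)` of them) the share of those for which exactly the numbers `D m_k` with `k` in `B` are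
  solved tends to `c ^ |B| (1 - c) ^ (M - |B|)`.
-/

set_option autoImplicit false

open scoped Classical

namespace Pool.Agent.Results.MP_d6ddbd_nt.CurvesOverCubicTwists

open Filter WeierstrassCurve Polynomial

/-- The rational zeros of the polynomial `f(x, y)` with the coefficients `L`: the entry `j` of the entry `i` of
`L` is the coefficient of `x^i y^j`. -/
def Zeros (L : List (List ℤ)) : Set (ℚ × ℚ) := {p : ℚ × ℚ |
  ∑ i ∈ Finset.range L.length, ∑ j ∈ Finset.range (L.getD i []).length,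
    (((L.getD i []).getD j 0 : ℤ) : ℚ) * p.1 ^ i * p.2 ^ j = 0}

/-- The same polynomial, as an element of `ℤ[y][x]` (`X` is `x`, `C X` is `y`, `C (C n)` is the constant `n`). -/
noncomputable def poly (L : List (List ℤ)) : (ℤ[X])[X] :=
  ∑ i ∈ Finset.range L.length, ∑ j ∈ Finset.range (L.getD i []).length,
    C (C ((L.getD i []).getD j 0)) * X ^ i * C X ^ j

/-- the list of the coefficients of `x³ + y³ - A` -/
def cubic (A : ℤ) : List (List ℤ) := [[-A, 0, 0, 1], [], [], [1]]

/-- the list of the coefficients of `y² - x³ + 432 A²` -/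
def weierstrass (A : ℤ) : List (List ℤ) := [[432 * A ^ 2, 0, 1], [], [], [-1]]

/-- the list of the coefficients of `a x³ + b y³ - c` -/
def diagonal (a b c : ℤ) : List (List ℤ) := [[-c, 0, 0, b], [], [], [a]]

/-- `f` lies over `C_A`: there is a rational map `[P : Q : R]` from `f = 0` to `X³ + Y³ = A`, and no component
goes to the lines `X Y Z (X - Y) = 0`. -/
def Over (f : (ℤ[X])[X]) (A : ℤ) : Prop :=
  ∃ P Q R : (ℤ[X])[X], f ∣ P ^ 3 + Q ^ 3 - C (C A) * R ^ 3 ∧
    ∀ d : (ℤ[X])[X], d ∣ f → d ∣ P * Q * R * (P - Q) → ∃ n : ℤ, d = C (C n)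

/-- `f` lies under `C_A`: there is a nonconstant rational map `[U : V : W]` from `X³ + Y³ = A` to `f = 0`. The sum
is `W ^ N f(U / W, V / W)`, `N` is at least the degree of `f`. -/
def Under (L : List (List ℤ)) (A : ℤ) : Prop :=
  ∃ (U V W : (ℤ[X])[X]) (N : ℕ), (∀ i j, (L.getD i []).getD j 0 ≠ 0 → i + j ≤ N) ∧
    poly (cubic A) ∣ ∑ i ∈ Finset.range L.length, ∑ j ∈ Finset.range (L.getD i []).length,
      C (C ((L.getD i []).getD j 0)) * U ^ i * V ^ j * W ^ (N - i - j) ∧
    ¬ poly (cubic A) ∣ W ∧ ∀ a b c : ℤ, c ≠ 0 →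
      ¬ (poly (cubic A) ∣ C (C c) * U - C (C a) * W ∧ poly (cubic A) ∣ C (C c) * V - C (C b) * W)

/-- The base numbers: cube-free, prime to `3`, not `±1` modulo `9`, exactly one prime divisor is `2`
modulo `3`. -/
def IsBase (N : ℕ) : Prop :=
  N ≠ 0 ∧ ¬ 3 ∣ N ∧ (∀ p : ℕ, p.Prime → ¬ p ^ 3 ∣ N) ∧ N % 9 ≠ 1 ∧ N % 9 ≠ 8 ∧
    ∃ q : ℕ, q.Prime ∧ q % 3 = 2 ∧ q ∣ N ∧ ∀ p : ℕ, p.Prime → p ∣ N → p ≠ q → p % 3 = 1

/-- The curve `E_n : y² + n y = x³`. -/
def curve {F : Type} [Field F] (n : F) : WeierstrassCurve F := ⟨0, 0, n, 0, 0⟩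

/-- `E_n(ℚ)` is finite and `Ш(E_n/ℚ)[3^∞] = 0` -/
def Good (n : ℕ) : Prop :=
  Finite (curve (n : ℚ)).toAffine.Point ∧
    ∀ (k : ℕ) (x : Pool.Agent.TH841.SH.D.Sha (curve (n : ℚ))), 3 ^ k • x = 0 → x = 0

/-- The solved numbers: `|A|` is a cube or a good base times a cube. -/
def Solved (A : ℤ) : Prop := ∃ n b : ℕ, n * b ^ 3 = A.natAbs ∧ (n = 1 ∨ IsBase n ∧ Good n)

/-- The split numbers: squarefree, all prime divisors are `1` modulo `3`. -/
def Split (D : ℕ) : Prop := Squarefree D ∧ ∀ p : ℕ, p.Prime → p ∣ D → p % 3 = 1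

/-- The product of the prime divisors `1` modulo `3` of `D`. -/
def splitPart (D : ℕ) : ℕ := ∏ p ∈ D.primeFactors.filter (fun p => p % 3 = 1), p

/-- The divisors in the residue class `a` modulo `9` of the square of the split part of `D`. -/
def divs (a D : ℕ) : Finset ℕ := (splitPart D ^ 2).divisors.filter fun d => d % 9 = a

/-- The tuples of divisors in the residue classes `a`. -/
def tuples {n : ℕ} (a : Fin n → ℕ) (D : ℕ) : Finset (Fin n → ℕ) :=
  Fintype.piFinset fun i => divs (a i) D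

/-- The form `d_1 ^ e_1 ⋯ d_n ^ e_n` with exponents `0, 1, 2`. -/
def form {n : ℕ} (e : Fin n → ZMod 3) (d : Fin n → ℕ) : ℕ := ∏ i, d i ^ (e i).val

/-- No trivial relations: no `e_j` is zero, and for `j ≠ l` neither are the forms equal nor is their
product a cube identically. -/
def Unrelated {M n : ℕ} (N : Fin M → ℕ) (e : Fin M → Fin n → ZMod 3) : Prop :=
  (∀ j, e j ≠ 0) ∧ ∀ j l, j ≠ l →
    ¬ (e l = e j ∧ N l = N j) ∧ ¬ (e l = -e j ∧ ∃ b : ℕ, N j * N l = b ^ 3)

/-- The vector of the values of the forms, the numbers `N_j d_1 ^ e_j1 ⋯ d_n ^ e_jn`. -/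
def values {M n : ℕ} (N : Fin M → ℕ) (e : Fin M → Fin n → ZMod 3) (d : Fin n → ℕ) : Fin M → ℕ :=
  fun j => N j * form (e j) d

/-- The share of the tuples of divisors in the residue classes `a` for which the vector of the values has
the property `P`. -/
noncomputable def share {M n : ℕ} (N : Fin M → ℕ) (e : Fin M → Fin n → ZMod 3) (a : Fin n → ℕ)
    (D : ℕ) (P : (Fin M → ℕ) → Prop) : ℝ :=
  (((tuples a D).filter fun d => P (values N e d)).card : ℝ) / (tuples a D).card

/-- the number of the `D ≤ X` with the property `P` -/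
noncomputable def count (P : ℕ → Prop) (X : ℕ) : ℕ := ((Finset.Icc 1 X).filter P).card

/-- The multipliers: `1` modulo `9`, cube-free, all prime divisors are `1` modulo `3`. -/
def Multiplier (m : ℕ) : Prop := m % 9 = 1 ∧ ∀ p : ℕ, p.Prime → p ∣ m → p % 3 = 1 ∧ ¬ p ^ 3 ∣ m

/-- The squarefree bases prime to the `m_k`. -/
def Family {M : ℕ} (m : Fin M → ℕ) (D : ℕ) : Prop := Squarefree D ∧ IsBase D ∧ ∀ k, D.Coprime (m k)

/-- `c = ∏_{i ≥ 1} (1 - 3^{-i})` -/
noncomputable def c : ℝ := ∏' i : ℕ, (1 - (1 / 3 : ℝ) ^ (i + 1))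

section proof

open Q283.Q3B Q283.Q3N Q283.ND Q283.NJ Q283.NK
open Q283.Q3 (cq cq_eq cq_ge sum_cq cq_zero)

/-- The cube-free part of `n`. -/
def cubeFree (n : ℕ) : ℕ := ∏ p ∈ n.primeFactors, p ^ (n.factorization p % 3)

theorem base_iff (N : ℕ) : IsBase N ↔ Pool.Agent.Y703.CT.Cls N := by
  unfold IsBase Pool.Agent.Y703.CT.Cls Pool.Agent.Y703.CT.Base
  tauto

theorem good_iff (n : ℕ) : Good n ↔ Pool.Agent.Y703.CT.Triv3 n := by
  have h : Pool.Agent.Y703.CT.EQ (Pool.Agent.Y703.CT.WD n) = curve (n : ℚ) := by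
    unfold Pool.Agent.Y703.CT.EQ Pool.Agent.Y703.CT.WD curve WeierstrassCurve.map
    simp
  unfold Good Pool.Agent.Y703.CT.Triv3
  rw [h]

theorem pw_inj {a b : ℕ} (h : 3 ^ (2 * a + 1) = 3 ^ (2 * b + 1)) : a = b := by
  have := Nat.pow_right_injective (le_refl 2 |>.trans (by norm_num : 2 ≤ 3)) h
  omega

theorem mem_tuples {n : ℕ} {a : Fin n → ℕ} {D : ℕ} {d : Fin n → ℕ} :
    d ∈ tuples a D ↔ ∀ i, d i ∈ divs (a i) D := by
  unfold tuples
  rw [Fintype.mem_piFinset]

theorem tuples_eq {n : ℕ} (a : Fin n → ℕ) (D : ℕ) : tuples a D = DkK a (sp D) := by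
  ext d
  rw [mem_tuples, mem_DkK]
  exact Iff.rfl

/-- the cube-free part of a product of divisors -/
theorem cls_form {n : ℕ} {N D : ℕ} {e : Fin n → ZMod 3} {d : Fin n → ℕ}
    (hN : Pool.Agent.Y703.CT.Cls N) (hd : ∀ i, d i ∣ splitPart D ^ 2) (h1 : N * form e d % 9 ≠ 1)
    (h8 : N * form e d % 9 ≠ 8) : Pool.Agent.Y703.CT.Cls (cubeFree (N * form e d)) ∧
      N * form e d ≠ 0 := by
  have hS : ∀ p ∈ (sp D).primeFactors, p.Prime := fun p hp => Nat.prime_of_mem_primeFactors hp
  have h0 : sp D ≠ 0 := (sp_sqf D).ne_zero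
  have hd0 : ∀ i, d i ≠ 0 := fun i h => pow_ne_zero 2 h0 (zero_dvd_iff.1 (h ▸ hd i))
  have hf0 : form e d ≠ 0 := fo_ne hd0
  have hp : ∀ p : ℕ, p.Prime → p ∣ form e d → p % 3 = 1 := by
    intro p hp hpd
    obtain ⟨i, -, hi⟩ := (hp.prime.dvd_finsetProd_iff _).1 hpd
    exact (sp_ac D).2 p hp (hp.dvd_of_dvd_pow ((hp.dvd_of_dvd_pow hi).trans (hd i)))
  obtain ⟨M, c, g1, g2, g3, -⟩ := Q283.MC.cf_bs (N := N) (R := form e d) ⟨hN.1, hN.2.2.2⟩ hf0 hp
  have hn : N * form e d ≠ 0 := mul_ne_zero hN.1.1 hf0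
  have h2 : M = cf (N * form e d) := cf_unique (g1.symm.trans (cf_mul hn)) (by rw [← g1]; exact hn)
    g2.1.2.2 (cf_free _)
  refine ⟨?_, hn⟩
  show Pool.Agent.Y703.CT.Cls (cf (N * form e d))
  rw [← h2]
  exact ⟨g2.1, by rw [g3]; exact h1, by rw [g3]; exact h8, g2.2⟩

theorem form_mod {n : ℕ} {D : ℕ} {e : Fin n → ZMod 3} {a d : Fin n → ℕ} (hd : d ∈ tuples a D)
    (N : ℕ) : N * form e d % 9 = N * form e a % 9 := by
  have h1 : ∀ i, d i % 9 = a i := fun i => (Finset.mem_filter.1 (mem_tuples.1 hd i)).2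
  have h2 : Nat.ModEq 9 (form e d) (form e a) := by
    unfold form
    rw [← ZMod.natCast_eq_natCast_iff]
    push_cast
    refine Finset.prod_congr rfl fun i _ => ?_
    rw [← h1 i, ZMod.natCast_mod]
  exact (Nat.ModEq.refl N).mul h2

theorem tuple_dvd {n : ℕ} {D : ℕ} {a d : Fin n → ℕ} (hd : d ∈ tuples a D) (i : Fin n) :
    d i ∣ splitPart D ^ 2 :=
  ((mem_Dk (k := a i) (sp_sqf D)).1 (mem_tuples.1 hd i)).1

/-- the cube-free part of a product of divisors in the classes -/
theorem cls_of {n : ℕ} {N D : ℕ} {e : Fin n → ZMod 3} {a d : Fin n → ℕ}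
    (hN : Pool.Agent.Y703.CT.Cls N) (h1 : N * form e a % 9 ≠ 1)
    (h8 : N * form e a % 9 ≠ 8) (hd : d ∈ tuples a D) :
    Pool.Agent.Y703.CT.Cls (cubeFree (N * form e d)) :=
  (cls_form hN (tuple_dvd hd) (by rw [form_mod hd]; exact h1) (by rw [form_mod hd]; exact h8)).1

theorem form_ne {n : ℕ} {D : ℕ} {e : Fin n → ZMod 3} {d : Fin n → ℕ}
    (hd : ∀ i, d i ∣ splitPart D ^ 2) : form e d ≠ 0 := by
  have h0 : sp D ≠ 0 := (sp_sqf D).ne_zero
  have hd0 : ∀ i, d i ≠ 0 := fun i h => pow_ne_zero 2 h0 (zero_dvd_iff.1 (h ▸ hd i))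
  exact fo_ne hd0

theorem cv_iff {L : List (List ℤ)} {A : ℤ} : Under L A ↔ Q155.AL.Cv L A := by
  have h : poly (cubic A) = Q155.AL.FA A := Q155.AL.FA_cub A
  unfold Under Q155.AL.Cv
  rw [h]
  rfl

/-- the solved numbers are those for which the search of `Q155.AL` has an answer -/
theorem solved_iff {A : ℤ} (hA : A ≠ 0) : Solved A ↔ Q155.AL.gens A ≠ none := by
  rw [Q155.AL.gens_dom hA]
  refine exists_congr fun n => exists_congr fun b => and_congr_right fun _ => or_congr_right ?_
  rw [base_iff, good_iff]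

/-- one value -/
theorem value {n : ℕ} {N D : ℕ} {e : Fin n → ZMod 3} {a d : Fin n → ℕ}
    (hN : Pool.Agent.Y703.CT.Cls N) (h1 : N * form e a % 9 ≠ 1)
    (h8 : N * form e a % 9 ≠ 8) (hd : d ∈ tuples a D) :
    (((N * form e d : ℕ) : ℤ) ≠ 0) ∧
      (∃ b, cubeFree (N * form e d) * b ^ 3 = ((N * form e d : ℕ) : ℤ).natAbs) := by
  have hn : N * form e d ≠ 0 := mul_ne_zero hN.1.1 (form_ne (tuple_dvd hd))
  refine ⟨by exact_mod_cast hn,
    ∏ p ∈ (N * form e d).primeFactors, p ^ ((N * form e d).factorization p / 3), ?_⟩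
  rw [Int.natAbs_natCast]
  exact (cf_mul hn).symm

theorem val_gens {n : ℕ} {N D : ℕ} {e : Fin n → ZMod 3} {a d : Fin n → ℕ}
    (hN : Pool.Agent.Y703.CT.Cls N) (h1 : N * form e a % 9 ≠ 1)
    (h8 : N * form e a % 9 ≠ 8) (hd : d ∈ tuples a D) :
    Solved ((N * form e d : ℕ) : ℤ) ↔ rr (cubeFree (N * form e d)) = 0 := by
  haveI : IsCyclotomicExtension {3} ℚ (CyclotomicField 3 ℚ) :=
    CyclotomicField.isCyclotomicExtension 3 ℚ
  obtain ⟨⟨j, -⟩, -⟩ := Pool.Agent.Y455.CTK.jex (CyclotomicField 3 ℚ)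
  obtain ⟨h0, b, hb⟩ := value hN h1 h8 hd
  rw [solved_iff h0, Q155.AL.gens_base h0 hb (cls_of hN h1 h8 hd)]
  exact (sel_N (CyclotomicField 3 ℚ) j (cls_of hN h1 h8 hd)).2.2.symm

/-- the shares -/
theorem share_eq {M n : ℕ} {N : Fin M → ℕ} {e : Fin M → Fin n → ZMod 3} {a : Fin n → ℕ} {D : ℕ}
    {P Q : (Fin M → ℕ) → Prop}
    (h : ∀ d ∈ tuples a D, P (values N e d) ↔ Q (fun j => rr (cubeFree (values N e d j)))) :
    share N e a D P =
      (((DkK a (sp D)).filter fun d => (fun j => rr (cf (N j * fo (e j) d))) ∈ {r | Q r}).card : ℝ) /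
        (DkK a (sp D)).card := by
  unfold share
  rw [tuples_eq] at h ⊢
  congr 2
  exact Pool.Agent.XLK.fcc fun d hd => h d hd

theorem share_le {M n : ℕ} {N : Fin M → ℕ} {e : Fin M → Fin n → ZMod 3} {a : Fin n → ℕ} {D : ℕ}
    {P Q : (Fin M → ℕ) → Prop} (h : ∀ d ∈ tuples a D, P (values N e d) → Q (values N e d)) :
    share N e a D P ≤ share N e a D Q := by
  unfold share
  refine div_le_div_of_nonneg_right (Nat.cast_le.2 (Finset.card_le_card fun d hd => ?_))
    (Nat.cast_nonneg _)
  rw [Finset.mem_filter] at hd ⊢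
  exact ⟨hd.1, h d hd.1 hd.2⟩

end proof

open Q283.Q3B Q283.Q3N Q283.ND Q283.NJ Q283.NK in
open Q283.Q3 (cq cq_eq cq_ge sum_cq cq_zero) in
theorem result :
    ∃ φ : List (List ℤ) →. Bool, Partrec φ ∧
    (∀ L, ∀ r ∈ φ L, (r = true ↔ (Zeros L).Infinite)) ∧
    (∀ A : ℤ, A ≠ 0 → Solved A → ∀ L, Over (poly L) A → false ∈ φ L) ∧
    (∀ A : ℤ, A ≠ 0 → (Zeros (cubic A)).Infinite → ∀ L, Under L A → true ∈ φ L) ∧
    (∀ L M N : List (List ℤ), poly L = poly M * poly N →
      (false ∈ φ M → false ∈ φ N → false ∈ φ L) ∧ (true ∈ φ M → true ∈ φ L)) ∧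
    (∀ A : ℤ, A ≠ 0 → Over (poly (cubic A)) A ∧ Under (cubic A) A ∧
      Over (poly (weierstrass A)) A ∧ Under (weierstrass A) A) ∧
    (∀ A a b c m : ℤ, A ≠ 0 → m ≠ 0 → a * b * c = A * m ^ 3 → Over (poly (diagonal a b c)) A) ∧
    (∀ a b c : ℤ, poly (cubic a) = X ^ 3 + C X ^ 3 - C (C a) ∧
      poly (weierstrass a) = C X ^ 2 - X ^ 3 + C (C (432 * a ^ 2)) ∧
      poly (diagonal a b c) = C (C a) * X ^ 3 + C (C b) * C X ^ 3 + C (C (-c))) ∧
    0.56 < c ∧ c < 0.5602 ∧
    (∀ (M : ℕ) (m : Fin M → ℕ), (∀ k, Multiplier (m k)) → Function.Injective m →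
      (∀ B : Finset (Fin M), Tendsto (fun X : ℕ =>
        (count (fun D => Family m D ∧ ∀ k, (Solved (D * m k) ↔ k ∈ B)) X : ℝ) /
          count (Family m) X) atTop (nhds (c ^ B.card * (1 - c) ^ (M - B.card)))) ∧
      ∃ (k : ℝ) (X₀ : ℕ), 0 < k ∧ ∀ X : ℕ, X₀ ≤ X →
        k * (X / Real.sqrt (Real.log X)) ≤ (count (Family m) X : ℝ)) ∧
    (∀ (n : ℕ) (a : Fin n → ℕ) (D : ℕ), (tuples (fun _ : Fin n => 1) D).Nonempty ∧
      ((tuples a D).Nonempty →
        3 ^ (n * (splitPart D).primeFactors.card) ≤ 3 ^ n * (tuples a D).card)) ∧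
    (∀ D : ℕ, Split (splitPart D) ∧ (Split D → splitPart D = D)) ∧
    (∃ (k : ℝ) (X₀ : ℕ), 0 < k ∧ ∀ X : ℕ, X₀ ≤ X →
      k * (X / Real.sqrt (Real.log X)) ≤ (count Split X : ℝ)) ∧
    ∃ S : ℕ → Prop, Tendsto (fun X : ℕ => (count S X : ℝ) / X) atTop (nhds 1) ∧
      Tendsto (fun X : ℕ => (count (fun D => Split D ∧ S D) X : ℝ) / count Split X) atTop (nhds 1) ∧
      ∀ (M n : ℕ) (N : Fin M → ℕ) (e : Fin M → Fin n → ZMod 3), (∀ j, IsBase (N j)) →
      Unrelated N e → ∀ ε : ℝ, 0 < ε → ∃ D₀ : ℕ, ∀ D : ℕ, D₀ ≤ D → S D →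
        ∀ a : Fin n → ℕ, (∀ j, N j * form (e j) a % 9 ≠ 1 ∧ N j * form (e j) a % 9 ≠ 8) →
          (tuples a D).Nonempty →
          (∀ B : Finset (Fin M), |share N e a D (fun v => ∀ j, (Solved (v j) ↔ j ∈ B)) -
            c ^ B.card * (1 - c) ^ (M - B.card)| ≤ ε) ∧
          (∀ B : Finset (Fin M), c ^ B.card - ε ≤ share N e a D (fun v => ∀ j ∈ B, ∀ L,
            Over (poly L) (v j) → false ∈ φ L)) ∧
          (0 < M → ∀ η : ℝ, 0 < η → share N e a D (fun v =>
            η ≤ |((Finset.univ.filter fun j => Solved (v j)).card : ℝ) / M - c|) ≤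
              2 * Real.exp (-(η ^ 2 * M / 4)) + ε) := by
  obtain ⟨φ, hφ, hcor, hpos, hneg, hmul⟩ := Q155.AL.main_alg3
  have hlaw : Pool.Agent.Y703.CX.c3 = c := rfl
  have hc3 : c = Pool.Agent.Y703.CX.c3 := rfl
  have hc1 : 0.56 < c ∧ c < 0.5602 := by
    rw [hc3]
    exact ⟨Q283.ND.c3_lt.2, Q283.ND.c3_lt.1⟩
  refine ⟨φ, hφ, hcor, fun A hA hs L hL => hneg A hA ((solved_iff hA).1 hs) L hL,
    fun A hA h L hL => hpos A hA (Q155.AL.zer_cubL A ▸ h) L (cv_iff.1 hL), hmul,
    fun A hA => ⟨Q155.AL.mp_self A, cv_iff.2 (Q155.AL.cv_self A), Q155.AL.mp_wei hA,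
      cv_iff.2 (Q155.AL.cv_wei hA)⟩,
    fun A a b c m hA hm h => Q155.AL.mp_dia hA hm h,
    fun a b c => ⟨Q155.AL.toP_cubL a, Q155.AL.toP_weiL a, Q155.AL.toP_diaL a b c⟩, hc1.1, hc1.2,
    fun M m hm hi => ⟨fun B => ?_, ?_⟩,
    fun n a D => ⟨?_, fun h => ?_⟩, fun D => ⟨sp_ac D, fun h => sp_split h⟩, ?_, ?_⟩
  · have h1 := law_N m (fun k => hm k) hi B
    rw [← hc3] at h1
    refine h1.congr fun X => ?_
    refine congrArg₂ (fun a b : ℕ => (a : ℝ) / (b : ℝ)) ?_ ?_
    · refine Pool.Agent.XLK.fcc fun D _ => ?_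
      unfold Family
      rw [base_iff]
      constructor
      · rintro ⟨h2, h3, h4, h5⟩
        refine ⟨⟨h2, h3, h4⟩, fun k => ?_⟩
        have h6 := cls_mul h3 (hm k) (h4 k)
        have h7 : D * m k * 1 ^ 3 = ((D : ℤ) * (m k : ℤ)).natAbs := by
          rw [one_pow, mul_one, ← Nat.cast_mul, Int.natAbs_natCast]
        have h8 : ((D : ℤ) * (m k : ℤ)) ≠ 0 := by
          rw [← Nat.cast_mul]
          exact_mod_cast h6.1.1
        rw [solved_iff h8, Q155.AL.gens_base h8 h7 h6, triv_iff h6]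
        exact h5 k
      · rintro ⟨⟨h2, h3, h4⟩, h5⟩
        refine ⟨h2, h3, h4, fun k => ?_⟩
        have h6 := cls_mul h3 (hm k) (h4 k)
        have h7 : D * m k * 1 ^ 3 = ((D : ℤ) * (m k : ℤ)).natAbs := by
          rw [one_pow, mul_one, ← Nat.cast_mul, Int.natAbs_natCast]
        have h8 : ((D : ℤ) * (m k : ℤ)) ≠ 0 := by
          rw [← Nat.cast_mul]
          exact_mod_cast h6.1.1
        rw [← triv_iff h6, ← Q155.AL.gens_base h8 h7 h6, ← solved_iff h8]
        exact h5 k
    · refine Pool.Agent.XLK.fcc fun D _ => ?_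
      unfold Family
      rw [base_iff]
  · obtain ⟨k, X₀, hk, h⟩ := low_N m fun k => hm k
    refine ⟨k, X₀, hk, fun X hX => (h X hX).trans (le_of_eq ?_)⟩
    unfold count
    congr 1
    refine Pool.Agent.XLK.fcc fun D _ => ?_
    unfold Family
    rw [base_iff]
  · obtain ⟨x, hx⟩ := one_mem (sp_ac D)
    exact ⟨fun _ => x, mem_tuples.2 fun _ => hx⟩
  · rw [tuples_eq] at h ⊢
    have h1 := DkK_card (sp_ac D) h
    rw [Fintype.card_fin] at h1
    exact h1
  · obtain ⟨k, X₀, hk, h⟩ := low_D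
    refine ⟨k, X₀, hk, fun X hX => ?_⟩
    have h1 := h X hX
    rw [DS_eq] at h1
    refine le_trans (le_of_eq ?_) h1
    have h2 : (Real.log X) ^ (-(1 / 2) : ℝ) = (Real.sqrt (Real.log X))⁻¹ := by
      rw [Real.rpow_neg (Real.log_natCast_nonneg X), ← Real.sqrt_eq_rpow]
    rw [h2]
    ring
  · obtain ⟨S, hS, hS', hJ, hL⟩ := mainKC
    refine ⟨S, ?_, Q155.NL.tendsto_of_alm (C := Dc) ⟨1, le_rfl, squarefree_one, fun p hp hd =>
      absurd (Nat.dvd_one.1 hd) hp.one_lt.ne'⟩ hS', fun M n N e hN hinj ε hε => ?_⟩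
    · have h1 := Q155.NL.tendsto_of_alm (C := fun _ => True) ⟨1, le_rfl, trivial⟩ hS
      refine h1.congr fun X => ?_
      have h2 : Q155.NL.cnt (fun _ => True) X = X := by
        have h0 : Q155.NL.cs (fun _ => True) X = Finset.Icc 1 X := by
          ext D
          rw [Q155.NL.mem_cs, Finset.mem_Icc]
          exact ⟨fun h => h.1, fun h => ⟨h, trivial⟩⟩
        unfold Q155.NL.cnt
        rw [h0, Nat.card_Icc]
        omega
      rw [h2]
      congr 2
      unfold Q155.NL.cnt Q155.NL.cs count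
      congr 1
      ext D
      simp
    · have hC : ∀ j, Pool.Agent.Y703.CT.Cls (N j) := fun j => (base_iff (N j)).1 (hN j)
      have hI : Ind N e := ind_of hC hinj.1 hinj.2
      obtain ⟨e₁, he₁⟩ : ∃ e₁ : ℝ, e₁ = ε / 2 ^ M := ⟨_, rfl⟩
      have he0 : 0 < e₁ := by
        rw [he₁]
        positivity
      have hee : 2 ^ M * e₁ ≤ ε := by
        rw [he₁, mul_div_cancel₀ _ (by positivity)]
      have hea : e₁ ≤ ε := (le_mul_of_one_le_left he0.le (one_le_pow₀ (by norm_num))).trans hee
      obtain ⟨D₀, hD₀⟩ := eventually_atTop.1 (hJ M n N e hC hI e₁ he0)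
      refine ⟨D₀, fun D hD hSD a ha hne => ?_⟩
      have hJD := hD₀ D hD
      have hJa := hJD hSD a (fun j => (ha j).1) (fun j => (ha j).2)
      have hne' : (DkK a (sp D)).Nonempty := by rw [← tuples_eq]; exact hne
      have hpos1 : 0 < (DkK a (sp D)).card := Finset.card_pos.2 hne'
      have hpos' : (0 : ℝ) < (DkK a (sp D)).card := by exact_mod_cast hpos1
      have hposT : (0 : ℝ) < (tuples a D).card := by
        rw [tuples_eq]
        exact hpos'
      obtain ⟨G, hG⟩ : ∃ G : ℕ → Prop, ∀ v : ℕ, G v ↔ Solved ((v : ℕ) : ℤ) :=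
        ⟨_, fun _ => Iff.rfl⟩
      have hgs : ∀ d ∈ tuples a D, ∀ i, (G (values N e d i) ↔
          rr (cubeFree (values N e d i)) = 0) :=
        fun d hd i => (hG _).trans (val_gens (hC i) (ha i).1 (ha i).2 hd)
      have hT : ∀ T : Set (Fin M → ℕ),
          |(((DkK a (sp D)).filter fun d => (fun j => rr (cf (N j * fo (e j) d))) ∈ T).card : ℝ) /
            (DkK a (sp D)).card - msJ T| ≤ e₁ := fun T => div_abs hpos' (hJa T)
      have hA : ∀ A : Finset (Fin M),
          |share N e a D (fun v => ∀ j, (G (v j) ↔ j ∈ A)) -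
            c ^ A.card * (1 - c) ^ (M - A.card)| ≤ e₁ := by
        intro A
        rw [share_eq (Q := fun r => ∀ k, (r k = 0 ↔ k ∈ A)) fun d hd =>
          forall_congr' fun i => by rw [hgs d hd i]]
        have h2 := hT {r | ∀ k, (r k = 0 ↔ k ∈ A)}
        have h3 : msJ {r : Fin M → ℕ | ∀ k, (r k = 0 ↔ k ∈ A)} =
            c ^ A.card * (1 - c) ^ (M - A.card) := by
          have h4 := Q283.Q3A.meas_A A
          rw [cq_zero, ← hc3] at h4
          exact h4
        rw [h3] at h2
        exact h2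
      have hpat : ∀ J : ℕ → Prop, |share N e a D (fun v => J (Finset.univ.filter fun j =>
            G (v j)).card) - ∑ A : Finset (Fin M), (if J A.card then wt c A else 0)| ≤ ε := by
        intro J
        have hA' : ∀ A : Finset (Fin M), |(((tuples a D).filter fun d =>
            ∀ k, (G (values N e d k) ↔ k ∈ A)).card : ℝ) / (tuples a D).card - wt c A| ≤ e₁ := by
          intro A
          have h2 := hA A
          unfold share at h2
          have h4 : wt c A = c ^ A.card * (1 - c) ^ (M - A.card) := rfl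
          rw [h4]
          refine le_trans (le_of_eq ?_) h2
          congr 4
          exact Pool.Agent.XLK.fcc fun d _ => Iff.rfl
        have h2 := pat_fin (tuples a D) M (fun j d => G (values N e d j)) (p := c) hA' J
        have h3 : share N e a D (fun v => J (Finset.univ.filter fun j => G (v j)).card) =
            (((tuples a D).filter fun d =>
            J (Finset.univ.filter fun k => G (values N e d k)).card).card : ℝ) /
              (tuples a D).card := by
          unfold share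
          congr 2
        rw [h3]
        exact h2.trans hee
      refine ⟨fun A => ?_, fun B => ?_, fun hM η hη => ?_⟩
      · have h2 := (hA A).trans hea
        have h3 : (fun v : Fin M → ℕ => ∀ j, (G (v j) ↔ j ∈ A)) =
            fun v => ∀ j, (Solved ((v j : ℕ) : ℤ) ↔ j ∈ A) := by
          funext v
          exact propext (forall_congr' fun k => by rw [hG])
        rw [h3] at h2
        exact h2
      · obtain ⟨T, hTd⟩ : ∃ T : Set (Fin M → ℕ), T = {r | ∀ k ∈ B, r k = 0} := ⟨_, rfl⟩
        have h2 := hT T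
        have h3 : msJ T = c ^ B.card := by
          have h4 := Q155.AL.meas_B B
          rw [cq_zero, ← hc3] at h4
          rw [hTd]
          exact h4
        rw [h3] at h2
        have h4 : share N e a D (fun v => ∀ j ∈ B, G (v j)) ≤
            share N e a D (fun v => ∀ j ∈ B, ∀ L, Over (poly L) (v j) → false ∈ φ L) := by
          refine share_le fun d hd hv j hj L hL => ?_
          have h6 := (value (hC j) (ha j).1 (ha j).2 hd).1
          exact hneg _ h6 ((solved_iff h6).1 ((hG _).1 (hv j hj))) L hL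
        have h5 : |share N e a D (fun v => ∀ j ∈ B, G (v j)) - c ^ B.card| ≤ e₁ := by
          rw [share_eq (Q := fun r => r ∈ T) fun d hd => ?_]
          · exact h2
          · rw [hTd]
            exact forall_congr' fun i => forall_congr' fun _ => hgs d hd i
        have h6 := (abs_le.1 h5).1
        linarith
      · have h2 := (abs_le.1 (hpat fun m => η ≤ |(m : ℝ) / M - c|)).2
        have h3 := wt_tail (p := c) (by linarith [hc1.1]) (by linarith [hc1.2]) hM hη
        have h4 : (fun v : Fin M → ℕ =>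
            η ≤ |((Finset.univ.filter fun j => G (v j)).card : ℝ) / M - c|) =
            fun v => η ≤ |((Finset.univ.filter fun j =>
              Solved ((v j : ℕ) : ℤ)).card : ℝ) / M - c| := by
          funext v
          have h5 : (Finset.univ.filter fun j => G (v j)).card = (Finset.univ.filter fun j =>
              Solved ((v j : ℕ) : ℤ)).card :=
            Pool.Agent.XLK.fcc fun k _ => hG _
          rw [h5]
        rw [← h4]
        linarith

end Pool.Agent.Results.MP_d6ddbd_nt.CurvesOverCubicTwists
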