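import Pool.Agent.Q44.DA.Main
import Pool.Agent.Q44.DA.Law2

/-!
# One algorithm for all the curves over the twists of the elliptic curves with full 2-torsion, and its law

For three different integers `a = (a_0, a_1, a_2)` of sum `0` let `E_a : y² = (x - a_0)(x - a_1)(x - a_2)`; every
elliptic curve over `ℚ` with full rational 2-torsion has such an equation. A polynomial `f(x, y)` with integer
coefficients LIES OVER `E_a` if `f` has no multiple components and there is a rational map `(P/R, Q/R)` from the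
curve `f = 0` to `E_a` which is not constant on any component: polynomials `P`, `Q`, `R` with integer coefficients
such that `f` divides `Q² R - (P - a_0 R)(P - a_1 R)(P - a_2 R)` and only constants divide both `f` and
`R J`, where `J` is the numerator of the Jacobian determinant of `f` and `P/R`. It LIES UNDER `E_a` if there is a
nonconstant rational map `[U : V : W]` from `E_a` to the curve `f = 0`.

(The plane models of all the curves of genus one whose Jacobian is isogenous to `E_a`, with rational points or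
without, and of the curves of higher genus with a nonconstant map to `E_a`, lie over `E_a`; the plane models of
the elliptic curves isogenous to `E_a` also lie under `E_a`. This general remark is not proved here; proved are
the examples `E_a`, over and under `E_a`, and the quartics `y² = b x⁴ - s x² + q`,
`s = (a_j - a_i) + (a_l - a_i)`, `b q = (a_j - a_i)(a_l - a_i) ≠ 0`, of the three descents, over `E_a`.)

`E_a` is SOLVED if `E_a(ℚ)` is finite and `Ш(E_a/ℚ)` has no element of order two.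

THERE IS ONE ALGORITHM `φ`, a recursive function from the integer polynomials in two variables to
`{true, false}` which may be undefined for some polynomials, with the following properties.

* (Correctness.) If `φ(f)` is defined, then it says whether `f(x, y) = 0` has infinitely many rational solutions.
* (Negative answers.) For every solved `E_a` and EVERY `f` over `E_a` the value `φ(f)` is defined (and `false`).
* (Positive answers.) For every `E_a` with infinitely many rational points and EVERY `f` under `E_a` the value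
  `φ(f)` is defined (and `true`).
* (Components.) If `φ(f)` and `φ(g)` are `false`, then `φ(f g)` is `false`; if `φ(f)` is `true`, then `φ(f g)` is
  `true` for all `g`.

For an integer `D ≠ 0` let `E_{a, D}` be the quadratic twist, and `r(a, D)` the number with
`#Sel_2(E_{a, D}) = 2^(2 + r)`; then `2^rank #Ш[2] = 2^r`, and `E_{a, D}` is solved if and only if `r(a, D) = 0`
(proved for the curves `E_a` without rational cyclic subgroups of order 4: `IsModel`). Let
`β = ∏_{i ≥ 0} (1 - 2^(- 2 i - 1)) = 0.4194...`. For a finite set of parameters `t` and curves `E_1(t), …, E_m(t)`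
let `P` be the set of the indices `k` for which `r` is even; the LAW with the error `ε` says:

* for every `B ⊆ P` the share of the `t` for which exactly the curves `E_k(t)`, `k ∈ B`, are solved
  is within `ε` of `β^#B (1 - β)^(#P - #B)`;
* for every `B ⊆ P` the share of the `t` for which `φ` decides ALL the polynomials over any of the curves
  `E_k(t)`, `k ∈ B`, is at least `β^#B - ε`;
* for `P ≠ ∅` and `η > 0` the share of the `t` for which the frequency of the solved curves among the curves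
  `E_k(t)`, `k ∈ P`, differs from `β` by `η` or more is at most `2 exp(- η² #P / 4) + ε`.

(In the first and third statement the curves outside `P` are never solved.)

* (The natural order.) Let `E_{a_k}`, `k = 1, …, m`, be curves without rational cyclic subgroups of order 4
  whose modules of points of order dividing 4 are not isomorphic (`Matched`). The squarefree integers `D` with
  the sign of `D₀` and with the class of `D₀` in `ℚ_l^*/ℚ_l^(*2)` for the `l` in a finite set `S` of primes which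
  contains 2 and the primes of bad reduction have a positive density, the parities of the
  numbers `r(a_k, D)` are constant, and for every `ε > 0` and all large `X` the law holds for the `D` of the class
  with `|D| ≤ X` and the curves `E_k(D) = E_{a_k, D}`.
* (The divisors of almost every integer.) THERE IS ONE SET `𝒩` of positive integers of natural density one such
  that for ALL finite families of curves `E_{a_k}` without rational cyclic subgroups of order 4 and of nonempty
  sets `I_k ⊆ {1, …, n}` (the curves with the same `I_k` are not matched), all `S` as before, every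
  `ε > 0`, all large `N ∈ 𝒩` and all classes of the `n`-tuples `t` of squarefree divisors of `N` of any sign
  (given by the signs and by the classes in `ℚ_l^*/ℚ_l^(*2)`, `l ∈ S`, of the `t_i`): if the class is not empty,
  then it has the expected number of elements, the parities of the numbers `r(a_k, ∏_{i ∈ I_k} t_i)` are
  constant, and the law holds for the `t` in the class and the curves `E_k(t) = E_{a_k, ∏_{i ∈ I_k} t_i}`.
-/

set_option autoImplicit false
set_option linter.all false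

namespace Pool.Agent.Results.MP_d6ddbd_nt.CurvesOverQuadraticTwists

open Filter Topology Polynomial
open Pool.Agent.Y667.SX (Sel2H)
open Pool.Agent.TH841.SH.D (Sha)
open scoped Classical

/-! ### Plane curves -/

/-- The rational zeros of the polynomial `f(x, y)` with the coefficients `L`: the entry `j` of the entry `i` of
`L` is the coefficient of `x^i y^j`. -/
def Zeros (L : List (List ℤ)) : Set (ℚ × ℚ) := {p : ℚ × ℚ |
  ∑ i ∈ Finset.range L.length, ∑ j ∈ Finset.range (L.getD i []).length,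
    (((L.getD i []).getD j 0 : ℤ) : ℚ) * p.1 ^ i * p.2 ^ j = 0}

/-- The same polynomial, as an element of `ℤ[y][x]` (`X` is `x`, `C X` is `y`, `C (C n)` is the constant `n`). -/
noncomputable def poly (L : List (List ℤ)) : (ℤ[X])[X] :=
  ∑ i ∈ Finset.range L.length, ∑ j ∈ Finset.range (L.getD i []).length,
    C (C ((L.getD i []).getD j 0)) * X ^ i * C X ^ j

/-- the list of the coefficients of `y² - (x - a 0) (x - a 1) (x - a 2)` -/
def weierstrass (a : Fin 3 → ℤ) : List (List ℤ) :=
  [[a 0 * a 1 * a 2, 0, 1], [-(a 0 * a 1 + a 0 * a 2 + a 1 * a 2)], [a 0 + a 1 + a 2], [-1]]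

/-- the list of the coefficients of `y² - (b x⁴ - s x² + q)` -/
def quartic (b s q : ℤ) : List (List ℤ) := [[-q, 0, 1], [], [s], [], [-b]]

/-- The partial derivative with respect to `y` (`derivative` is the one with respect to `x`). -/
noncomputable def dy (f : (ℤ[X])[X]) : (ℤ[X])[X] :=
  Bivariate.swap (derivative (Bivariate.swap f))

/-- The Jacobian determinant of `f` and `P / R`, times `R²`. -/
noncomputable def jacobian (f P R : (ℤ[X])[X]) : (ℤ[X])[X] :=
  derivative f * (dy P * R - P * dy R) - dy f * (derivative P * R - P * derivative R)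

/-- `f` lies over `E_a`: `f` has no multiple components and there is a rational map `(P / R, Q / R)` from the
curve `f = 0` to `y² = (x - a 0) (x - a 1) (x - a 2)`, not constant on any component. -/
def Over (f : (ℤ[X])[X]) (a : Fin 3 → ℤ) : Prop :=
  ∃ P Q R : (ℤ[X])[X],
    f ∣ Q ^ 2 * R - (P - C (C (a 0)) * R) * (P - C (C (a 1)) * R) * (P - C (C (a 2)) * R) ∧
    ∀ d : (ℤ[X])[X], d ∣ f → d ∣ R * jacobian f P R → ∃ n : ℤ, d = C (C n)

/-- `f` lies under `E_a`: there is a nonconstant rational map `[U : V : W]` from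
`y² = (x - a 0) (x - a 1) (x - a 2)` to `f = 0`. The sum is `W ^ N f(U / W, V / W)`, `N` is at least the degree of
`f`. -/
def Under (L : List (List ℤ)) (a : Fin 3 → ℤ) : Prop :=
  ∃ (U V W : (ℤ[X])[X]) (N : ℕ), (∀ i j, (L.getD i []).getD j 0 ≠ 0 → i + j ≤ N) ∧
    poly (weierstrass a) ∣ ∑ i ∈ Finset.range L.length, ∑ j ∈ Finset.range (L.getD i []).length,
      C (C ((L.getD i []).getD j 0)) * U ^ i * V ^ j * W ^ (N - i - j) ∧
    ¬ poly (weierstrass a) ∣ W ∧ ∀ u v w : ℤ, w ≠ 0 →
      ¬ (poly (weierstrass a) ∣ C (C w) * U - C (C u) * W ∧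
        poly (weierstrass a) ∣ C (C w) * V - C (C v) * W)

/-! ### The elliptic curves -/

/-- Three different integers of sum 0. -/
structure IsCurve (a : Fin 3 → ℤ) : Prop where
  distinct : Function.Injective a
  sum : a 0 + a 1 + a 2 = 0

/-- The curve `y ^ 2 = (x - a 0) (x - a 1) (x - a 2)`, for `a 0 + a 1 + a 2 = 0`. -/
def curve (a : Fin 3 → ℤ) : WeierstrassCurve ℚ :=
  ⟨0, 0, 0, ((a 0 * a 1 + a 0 * a 2 + a 1 * a 2 : ℤ) : ℚ), ((-(a 0 * a 1 * a 2) : ℤ) : ℚ)⟩

/-- Finitely many rational points, no element of order two in the Tate-Shafarevich group. -/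
def Solved (a : Fin 3 → ℤ) : Prop :=
  Finite (curve a).toAffine.Point ∧ ∀ x : Sha (curve a), x + x = 0 → x = 0

/-- The roots `D a i` of the quadratic twist by `D`. -/
def twist (D : ℤ) (a : Fin 3 → ℤ) : Fin 3 → ℤ := fun i => D * a i

/-- The three roots are different, their sum is 0, and the product of the differences of one root with the
two others is not a square: the curve has no rational cyclic subgroup of order 4. -/
structure IsModel (a : Fin 3 → ℤ) : Prop extends IsCurve a where
  noCyclicFour : ∀ i j l, i ≠ j → i ≠ l → j ≠ l → ∀ s : ℤ, (a i - a j) * (a i - a l) ≠ s ^ 2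

/-- The differences of the roots are equal modulo squares for some bijection of the roots: the modules of
the points of order dividing 4 are isomorphic. -/
def Matched (a b : Fin 3 → ℤ) : Prop :=
  ∃ σ : Equiv.Perm (Fin 3), ∀ i j, i ≠ j → ∃ s : ℤ, (a i - a j) * (b (σ i) - b (σ j)) = s ^ 2

/-- A finite set of primes which contains 2 and the prime divisors of the differences of the roots. -/
structure IsBad (S : Finset ℕ) {m : ℕ} (a : Fin m → Fin 3 → ℤ) : Prop where
  prime : ∀ l ∈ S, l.Prime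
  two : 2 ∈ S
  bad : ∀ k i j, i ≠ j → ∀ l : ℕ, l.Prime → (l : ℤ) ∣ a k i - a k j → l ∈ S

/-- A family of curves `a k` and of forms, the products of the variables with indices in `I k`: the forms
are not constant and two curves with the same form are not matched. -/
structure IsFamily {n m : ℕ} (a : Fin m → Fin 3 → ℤ) (I : Fin m → Finset (Fin n)) : Prop where
  model : ∀ k, IsModel (a k)
  nonempty : ∀ k, (I k).Nonempty
  unmatched : ∀ k l, k ≠ l → I k = I l → ¬ Matched (a k) (a l)

/-- The number `r` in `#Sel_2 = 2 ^ (2 + r)`. -/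
noncomputable def selmerRank (W : WeierstrassCurve ℚ) : ℕ := Nat.log 2 (Nat.card (Sel2H W)) - 2

/-- The number `r` for the twist by `D`. -/
noncomputable def r (a : Fin 3 → ℤ) (D : ℤ) : ℕ := selmerRank (curve (twist D a))

/-! ### The law -/

/-- The infinite product of the numbers `1 - 2 ^ (- 2 i - 1)`, `i ≥ 0`. -/
noncomputable def beta : ℝ := ∏' i : ℕ, (1 - (1 / 2 : ℝ) ^ (2 * i + 1))

/-- The share of the elements of a finite set with the property `P`. -/
noncomputable def share {α : Type} (A : Set α) (P : α → Prop) : ℝ := ({t ∈ A | P t}.ncard : ℝ) / A.ncard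

/-- The indices `k` with even `e k`. -/
noncomputable def evens {m : ℕ} (e : Fin m → ℕ) : Finset (Fin m) := Finset.univ.filter fun k => Even (e k)

/-- The law with the error `ε` for the function `φ`, the parameters `t` in `A`, the curves `c t k` and the
set `P` of indices. -/
def Law (φ : List (List ℤ) →. Bool) {α : Type} {m : ℕ} (A : Set α) (c : α → Fin m → Fin 3 → ℤ)
    (P : Finset (Fin m)) (ε : ℝ) : Prop :=
  (∀ B ⊆ P, |share A (fun t => ∀ k, (Solved (c t k) ↔ k ∈ B)) -
    beta ^ B.card * (1 - beta) ^ (P.card - B.card)| ≤ ε) ∧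
  (∀ B ⊆ P, beta ^ B.card - ε ≤
    share A fun t => ∀ k ∈ B, ∀ L, Over (poly L) (c t k) → false ∈ φ L) ∧
  (0 < P.card → ∀ η : ℝ, 0 < η → share A (fun t =>
    η ≤ |((Finset.univ.filter fun k => Solved (c t k)).card : ℝ) / P.card - beta|) ≤
      2 * Real.exp (-(η ^ 2 * P.card / 4)) + ε)

/-- The squarefree integers `D` with `|D| ≤ X`, with the sign of `D₀` and with the class of `D₀` modulo
squares in `ℚ_l` for the primes `l` in `S`. -/
def Class (S : Finset ℕ) (D₀ : ℤ) (X : ℕ) : Set ℤ :=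
  {D | |D| ≤ X ∧ Squarefree D ∧ 0 < D * D₀ ∧
    ∀ (l : ℕ) [Fact l.Prime], l ∈ S → IsSquare ((D * D₀ : ℤ) : ℚ_[l])}

/-- The tuples of squarefree divisors of `N` (of any sign) with the signs of the `t₀ i` and with their
classes modulo squares in `ℚ_l` for the primes `l` in `S`. -/
def Tuples (S : Finset ℕ) {n : ℕ} (t₀ : Fin n → ℤ) (N : ℕ) : Set (Fin n → ℤ) :=
  {t | ∀ i, Squarefree (t i) ∧ t i ∣ (N : ℤ) ∧ 0 < t i * t₀ i ∧
    ∀ (l : ℕ) [Fact l.Prime], l ∈ S → IsSquare ((t i * t₀ i : ℤ) : ℚ_[l])}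

/-- The set of integers has natural density one. -/
def DensityOne (𝒩 : ℕ → Prop) : Prop :=
  Tendsto (fun X : ℕ => (Nat.card {N : ℕ // 1 ≤ N ∧ N ≤ X ∧ 𝒩 N} : ℝ) / X) atTop (𝓝 1)

/-! ### Comparison with the definitions of the proof -/

section comparison

open Q44.LD

theorem exists_bad {a : Fin 3 → ℤ} (h : IsModel a) : ∃ S, Vone a S := by
  set z : ℕ := 2 * ((a 0 - a 1) * (a 0 - a 2) * (a 1 - a 2)).natAbs with hz
  have h1 : ∀ i j, i ≠ j → a i - a j ≠ 0 := fun i j hij =>
    sub_ne_zero.2 fun h' => hij (h.distinct h')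
  have hz0 : z ≠ 0 := by
    rw [hz]
    refine mul_ne_zero two_ne_zero (Int.natAbs_ne_zero.2 ?_)
    exact mul_ne_zero (mul_ne_zero (h1 0 1 (by decide)) (h1 0 2 (by decide))) (h1 1 2 (by decide))
  refine ⟨z.primeFactors, h.distinct, h.sum, h.noCyclicFour,
    fun p hp => Nat.prime_of_mem_primeFactors hp,
    Nat.mem_primeFactors.2 ⟨Nat.prime_two, Dvd.intro _ rfl, hz0⟩, fun i j hij p hp hd => ?_⟩
  refine Nat.mem_primeFactors.2 ⟨hp, ?_, hz0⟩
  have h2 : a i - a j ∣ (a 0 - a 1) * (a 0 - a 2) * (a 1 - a 2) := by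
    have h3 : ∀ i : Fin 3, i = 0 ∨ i = 1 ∨ i = 2 := by decide
    rcases h3 i with rfl | rfl | rfl <;> rcases h3 j with rfl | rfl | rfl
    · exact absurd rfl hij
    · exact ⟨(a 0 - a 2) * (a 1 - a 2), by ring⟩
    · exact ⟨(a 0 - a 1) * (a 1 - a 2), by ring⟩
    · exact ⟨-((a 0 - a 2) * (a 1 - a 2)), by ring⟩
    · exact absurd rfl hij
    · exact ⟨(a 0 - a 1) * (a 0 - a 2), by ring⟩
    · exact ⟨-((a 0 - a 1) * (a 1 - a 2)), by ring⟩
    · exact ⟨-((a 0 - a 1) * (a 0 - a 2)), by ring⟩
    · exact absurd rfl hij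
  have h3 : p ∣ ((a 0 - a 1) * (a 0 - a 2) * (a 1 - a 2)).natAbs :=
    Int.natCast_dvd.1 (hd.trans h2)
  exact h3.mul_left 2

theorem val {n m : ℕ} {a : Fin m → Fin 3 → ℤ} {I : Fin m → Finset (Fin n)} (h : IsFamily a I)
    {S : Finset ℕ} (hS : IsBad S a) : Val a I S :=
  ⟨fun k => (h.model k).distinct, fun k => (h.model k).sum, fun k => (h.model k).noCyclicFour,
    h.nonempty, fun k l hkl hI σ => by
      have h1 := h.unmatched k l hkl hI
      unfold Matched at h1
      push Not at h1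
      exact h1 σ, hS.prime, hS.two, hS.bad⟩

theorem twist_curve {a : Fin 3 → ℤ} (h : IsCurve a) {D : ℤ} (hD : D ≠ 0) : IsCurve (twist D a) :=
  ⟨Pool.Agent.Y723.PT.tw_inj hD h.distinct, Q44.JQ.X.tw_sum h.sum D⟩

theorem facts {a : Fin 3 → ℤ} (h : IsModel a) {D : ℤ} (hD : D ≠ 0) :
    (Finite (Sel2H (curve (twist D a))) ∧ Nat.card (Sel2H (curve (twist D a))) = 2 ^ (2 + r a D) ∧
      Finite {x : Sha (curve (twist D a)) // x + x = 0} ∧
      2 ^ Module.finrank ℤ (curve (twist D a)).toAffine.Point *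
        Nat.card {x : Sha (curve (twist D a)) // x + x = 0} = 2 ^ r a D) ∧
      (Solved (twist D a) ↔ r a D = 0) := by
  obtain ⟨S, hS⟩ := exists_bad h
  have h1 := Q44.LD.fct_one Q44.LD.F.factsZ hS D hD
  have h2 := twist_curve h.toIsCurve hD
  exact ⟨h1, Q44.DA.sol_iff h2.sum h2.distinct h1.2.2.2⟩

theorem over_iff (f : (ℤ[X])[X]) (a : Fin 3 → ℤ) : Over f a ↔ Q44.DA.Mq f a := Iff.rfl

theorem under_iff (L : List (List ℤ)) (a : Fin 3 → ℤ) :
    Under L a ↔ Q44.DA.Cw L (Q44.DA.FW (a 0) (a 1) (a 2)) := by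
  have h : poly (weierstrass a) = Q44.DA.FW (a 0) (a 1) (a 2) := Q44.DA.toP_weiW (a 0) (a 1) (a 2)
  unfold Under Q44.DA.Cw
  rw [h]
  rfl

/-- the product over the roots does not depend on their order -/
theorem over_perm {f : (ℤ[X])[X]} {a b : Fin 3 → ℤ} (h : Over f b)
    (hab : ∀ x y : (ℤ[X])[X], (x - C (C (b 0)) * y) * (x - C (C (b 1)) * y) * (x - C (C (b 2)) * y) =
      (x - C (C (a 0)) * y) * (x - C (C (a 1)) * y) * (x - C (C (a 2)) * y)) : Over f a := by
  obtain ⟨P, Q, R, h1, h2⟩ := h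
  rw [hab] at h1
  exact ⟨P, Q, R, h1, h2⟩

theorem over_quartic {a : Fin 3 → ℤ} (i j l : Fin 3) (hij : i ≠ j) (hil : i ≠ l) (hjl : j ≠ l)
    {b q : ℤ} (hb : b ≠ 0) (hq : q ≠ 0) (h : (a j - a i) * (a l - a i) = b * q) :
    Over (poly (quartic b (a j - a i + (a l - a i)) q)) a := by
  have h1 : Over (poly (quartic b (a j - a i + (a l - a i)) q)) ![a i, a j, a l] :=
    Q44.DA.mq_qua (a := ![a i, a j, a l]) hb hq h
  refine over_perm h1 fun x y => ?_
  show (x - C (C (a i)) * y) * (x - C (C (a j)) * y) * (x - C (C (a l)) * y) = _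
  have h3 : ∀ i : Fin 3, i = 0 ∨ i = 1 ∨ i = 2 := by decide
  rcases h3 i with rfl | rfl | rfl <;> rcases h3 j with rfl | rfl | rfl <;>
    rcases h3 l with rfl | rfl | rfl
  all_goals first
    | exact absurd rfl hij
    | exact absurd rfl hil
    | exact absurd rfl hjl
    | ring

section share

variable {α : Type} {A : Set α} {P Q : α → Prop}

theorem share_congr (h : ∀ t ∈ A, (P t ↔ Q t)) : share A P = share A Q := by
  have h1 : {t ∈ A | P t} = {t ∈ A | Q t} := by
    ext t
    exact and_congr_right (h t)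
  unfold share
  rw [h1]

theorem share_mono (hA : A.Finite) (h : ∀ t ∈ A, P t → Q t) : share A P ≤ share A Q := by
  unfold share
  refine div_le_div_of_nonneg_right (Nat.cast_le.2 (Set.ncard_le_ncard ?_ ?_)) (Nat.cast_nonneg _)
  · rintro t ⟨h1, h2⟩
    exact ⟨h1, h t h1 h2⟩
  · exact hA.subset (Set.sep_subset _ _)

end share

theorem mem_evens {m : ℕ} (e : Fin m → ℕ) (k : Fin m) :
    k ∈ evens e ↔ ((e k : ℕ) : ZMod 2) = 0 := by
  unfold evens
  rw [Finset.mem_filter, and_iff_right (Finset.mem_univ k), ZMod.natCast_eq_zero_iff_even]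

/-- the number is one of the elements of `J` -/
def Hit {m : ℕ} (J : Finset (Fin (m + 1))) (x : ℕ) : Prop := ∃ j ∈ J, (j : ℕ) = x

/-- the law from the shares of the events -/
theorem law_of {φ : List (List ℤ) →. Bool} (hφ : ∀ a : Fin 3 → ℤ, IsCurve a → Solved a →
      ∀ L, Over (poly L) a → false ∈ φ L) {α : Type} {m : ℕ} {A : Set α} (hA : A.Finite)
    {c : α → Fin m → Fin 3 → ℤ} {e : α → Fin m → ℕ}
    (hc : ∀ t ∈ A, ∀ k, IsCurve (c t k) ∧ (Solved (c t k) ↔ e t k = 0)) {e₀ : Fin m → ℕ} {ε : ℝ}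
    (h : ∀ (G : (Fin m → ℕ) → Prop) (v : ℝ),
      ((∃ B, B ⊆ evens e₀ ∧ (∀ x, G x ↔ ∀ k, (x k = 0 ↔ k ∈ B)) ∧
        v = beta ^ B.card * (1 - beta) ^ ((evens e₀).card - B.card)) ∨
      (∃ B, B ⊆ evens e₀ ∧ (∀ x, G x ↔ ∀ k ∈ B, x k = 0) ∧ v = beta ^ B.card) ∨
      ∃ J : Finset (Fin (m + 1)), (∀ x, G x ↔ Hit J (Finset.univ.filter fun k => x k = 0).card) ∧
        v = ∑ B ∈ (evens e₀).powerset, if Hit J B.card then
          beta ^ B.card * (1 - beta) ^ ((evens e₀).card - B.card) else 0) →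
      |share A (fun t => G (e t)) - v| ≤ ε) : Law φ A c (evens e₀) ε := by
  refine ⟨fun B hB => ?_, fun B hB => ?_, fun hP η hη => ?_⟩
  · rw [share_congr (Q := fun t => ∀ k, (e t k = 0 ↔ k ∈ B)) fun t ht =>
      forall_congr' fun k => by rw [(hc t ht k).2]]
    exact h (fun x => ∀ k, (x k = 0 ↔ k ∈ B)) _ (Or.inl ⟨B, hB, fun _ => Iff.rfl, rfl⟩)
  · have h1 := (abs_le.1 (h (fun x => ∀ k ∈ B, x k = 0) _
      (Or.inr (Or.inl ⟨B, hB, fun _ => Iff.rfl, rfl⟩)))).1
    have h2 : share A (fun t => ∀ k ∈ B, e t k = 0) ≤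
        share A fun t => ∀ k ∈ B, ∀ L, Over (poly L) (c t k) → false ∈ φ L := by
      refine share_mono hA fun t ht h3 k hk L hL => ?_
      obtain ⟨h4, h5⟩ := hc t ht k
      exact hφ _ h4 (h5.2 (h3 k hk)) L hL
    linarith
  · obtain ⟨J, hJ⟩ : ∃ J : Finset (Fin (m + 1)), ∀ j, j ∈ J ↔
        η ≤ |((j : ℕ) : ℝ) / (evens e₀).card - beta| :=
      ⟨Finset.univ.filter fun j => η ≤ |((j : ℕ) : ℝ) / (evens e₀).card - beta|, fun j => by
        rw [Finset.mem_filter, and_iff_right (Finset.mem_univ j)]⟩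
    have hJ2 : ∀ x : ℕ, x ≤ m → (Hit J x ↔
        η ≤ |(x : ℝ) / (evens e₀).card - beta|) := by
      intro x hx
      constructor
      · rintro ⟨j, hj, rfl⟩
        exact (hJ j).1 hj
      · intro hx2
        exact ⟨⟨x, by omega⟩, (hJ _).2 hx2, rfl⟩
    have hcard : ∀ B : Finset (Fin m), B.card ≤ m := fun B => by
      have := Finset.card_le_univ B
      rwa [Fintype.card_fin] at this
    have h1 := (abs_le.1 (h (fun x => Hit J (Finset.univ.filter fun k => x k = 0).card) _
      (Or.inr (Or.inr ⟨J, fun _ => Iff.rfl, rfl⟩)))).2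
    have h2 : share A (fun t =>
        η ≤ |((Finset.univ.filter fun k => Solved (c t k)).card : ℝ) / (evens e₀).card - beta|) =
        share A (fun t => Hit J (Finset.univ.filter fun k => e t k = 0).card) := by
      refine share_congr fun t ht => ?_
      rw [hJ2 _ (hcard _)]
      have h3 : (Finset.univ.filter fun k => Solved (c t k)) =
          Finset.univ.filter fun k => e t k = 0 :=
        Finset.filter_congr fun k _ => (hc t ht k).2
      rw [h3]
    have h4 : (∑ B ∈ (evens e₀).powerset, if Hit J B.card then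
          beta ^ B.card * (1 - beta) ^ ((evens e₀).card - B.card) else 0) =
        ∑ B ∈ (evens e₀).powerset, if η ≤ |(B.card : ℝ) / (evens e₀).card - beta| then
          beta ^ B.card * (1 - beta) ^ ((evens e₀).card - B.card) else 0 := by
      refine Finset.sum_congr rfl fun B _ => ?_
      by_cases h5 : η ≤ |(B.card : ℝ) / (evens e₀).card - beta|
      · rw [if_pos h5, if_pos ((hJ2 _ (hcard B)).2 h5)]
      · rw [if_neg h5, if_neg fun h6 => h5 ((hJ2 _ (hcard B)).1 h6)]
    have h6 := Q44.DA.tail2 hP (p := beta) Q44.LD.bet_pos.le Q44.DA.bet_lt_one.le hη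
    rw [h4] at h1
    rw [h2]
    linarith

/-- the sums of the events -/
theorem sum_of {m : ℕ} {e₀ : Fin m → ℕ} {G : (Fin m → ℕ) → Prop} {v : ℝ}
    (h : (∃ B, B ⊆ evens e₀ ∧ (∀ x, G x ↔ ∀ k, (x k = 0 ↔ k ∈ B)) ∧
        v = beta ^ B.card * (1 - beta) ^ ((evens e₀).card - B.card)) ∨
      (∃ B, B ⊆ evens e₀ ∧ (∀ x, G x ↔ ∀ k ∈ B, x k = 0) ∧ v = beta ^ B.card) ∨
      ∃ J : Finset (Fin (m + 1)), (∀ x, G x ↔ Hit J (Finset.univ.filter fun k => x k = 0).card) ∧
        v = ∑ B ∈ (evens e₀).powerset, if Hit J B.card then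
          beta ^ B.card * (1 - beta) ^ ((evens e₀).card - B.card) else 0) :
    HasSum (fun e : Fin m → ℕ => (if G e then (1 : ℝ) else 0) *
      ∏ k, Q44.JQ.lawc ((e₀ k : ℕ) : ZMod 2) (e k)) v := by
  have hP := mem_evens e₀
  rcases h with ⟨B, hB, hG, rfl⟩ | ⟨B, hB, hG, rfl⟩ | ⟨J, hG, rfl⟩
  · exact Q44.DA.hs_pat2 (c := fun k => ((e₀ k : ℕ) : ZMod 2)) hP hB hG
  · exact Q44.DA.hs_all (fun k => ((e₀ k : ℕ) : ZMod 2)) (fun k hk => (hP k).1 (hB hk)) hG
  · exact Q44.DA.hs_cnt (c := fun k => ((e₀ k : ℕ) : ZMod 2)) hP (Hit J) hG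

end comparison

theorem result :
    ∃ φ : List (List ℤ) →. Bool, Partrec φ ∧
    (∀ L, ∀ x ∈ φ L, (x = true ↔ (Zeros L).Infinite)) ∧
    (∀ a : Fin 3 → ℤ, IsCurve a → Solved a → ∀ L, Over (poly L) a → false ∈ φ L) ∧
    (∀ a : Fin 3 → ℤ, IsCurve a → Infinite (curve a).toAffine.Point →
      ∀ L, Under L a → true ∈ φ L) ∧
    (∀ L M N : List (List ℤ), poly L = poly M * poly N →
      (false ∈ φ M → false ∈ φ N → false ∈ φ L) ∧ (true ∈ φ M → true ∈ φ L)) ∧
    (∀ a : Fin 3 → ℤ, IsCurve a → Over (poly (weierstrass a)) a ∧ Under (weierstrass a) a ∧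
      ∀ i j l, i ≠ j → i ≠ l → j ≠ l → ∀ b q : ℤ, b * q = (a j - a i) * (a l - a i) →
        Over (poly (quartic b (a j - a i + (a l - a i)) q)) a) ∧
    (∀ (a : Fin 3 → ℤ) (b s q : ℤ),
      poly (weierstrass a) = C X ^ 2 - (X - C (C (a 0))) * (X - C (C (a 1))) * (X - C (C (a 2))) ∧
      poly (quartic b s q) = C X ^ 2 - (C (C b) * X ^ 4 - C (C s) * X ^ 2 + C (C q))) ∧
    (∀ a : Fin 3 → ℤ, IsModel a → ∀ D : ℤ, D ≠ 0 →
      (Finite (Sel2H (curve (twist D a))) ∧ Nat.card (Sel2H (curve (twist D a))) = 2 ^ (2 + r a D) ∧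
        Finite {x : Sha (curve (twist D a)) // x + x = 0} ∧
        2 ^ Module.finrank ℤ (curve (twist D a)).toAffine.Point *
          Nat.card {x : Sha (curve (twist D a)) // x + x = 0} = 2 ^ r a D) ∧
      (Solved (twist D a) ↔ r a D = 0)) ∧
    0.4194 < beta ∧ beta < 0.4195 ∧
    (∀ (m : ℕ) (a : Fin m → Fin 3 → ℤ) (S : Finset ℕ), (∀ k, IsModel (a k)) →
      (∀ k l, k ≠ l → ¬ Matched (a k) (a l)) → IsBad S a → ∀ D₀ : ℤ, Squarefree D₀ →
      (∃ c : ℝ, 0 < c ∧ Tendsto (fun X : ℕ => ((Class S D₀ X).ncard : ℝ) / X) atTop (𝓝 c)) ∧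
      (∀ X, ∀ D ∈ Class S D₀ X, ∀ k, (r (a k) D : ZMod 2) = r (a k) D₀) ∧
      ∀ ε : ℝ, 0 < ε → ∀ᶠ X : ℕ in atTop,
        Law φ (Class S D₀ X) (fun D k => twist D (a k)) (evens fun k => r (a k) D₀) ε) ∧
    ∃ 𝒩 : ℕ → Prop, DensityOne 𝒩 ∧
      ∀ (n m : ℕ) (a : Fin m → Fin 3 → ℤ) (I : Fin m → Finset (Fin n)) (S : Finset ℕ),
        IsFamily a I → IsBad S a → ∀ ε : ℝ, 0 < ε → ∀ᶠ N : ℕ in atTop, 𝒩 N →
        ∀ t₀ : Fin n → ℤ, (∀ i, Squarefree (t₀ i)) →
          ((Tuples S t₀ N).Nonempty ↔ ∀ i, ∀ l ∈ S, (l : ℤ) ∣ t₀ i → l ∣ N) ∧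
          ((Tuples S t₀ N).Nonempty →
            (Tuples S t₀ N).ncard * 2 ^ (n * (S.card + 2 + (S.filter fun l => l ∣ N).card)) =
              (2 * 2 ^ N.primeFactors.card) ^ n ∧
            (∀ t ∈ Tuples S t₀ N, ∀ k, (r (a k) (∏ i ∈ I k, t i) : ZMod 2) =
              r (a k) (∏ i ∈ I k, t₀ i)) ∧
            Law φ (Tuples S t₀ N) (fun t k => twist (∏ i ∈ I k, t i) (a k))
              (evens fun k => r (a k) (∏ i ∈ I k, t₀ i)) ε) := by
  obtain ⟨φ, h1, h2, h3, h4, h5⟩ := Q44.DA.main_DA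
  have hφ : ∀ a : Fin 3 → ℤ, IsCurve a → Solved a → ∀ L, Over (poly L) a → false ∈ φ L :=
    fun a ha hs L hL => h3 a ha.distinct ha.sum hs L hL
  refine ⟨φ, h1, h2, hφ, fun a ha hs L hL => h4 a ha.distinct ha.sum hs L ((under_iff L a).1 hL), h5,
    fun a ha => ⟨?_, ?_, fun i j l hij hil hjl b q hbq => ?_⟩,
    fun a b s q => ⟨Q44.DA.toP_weiW _ _ _, Q44.DA.toP_quaL s q b⟩, fun a ha D hD => facts ha hD,
    Q44.LD.bet_gt, ?_, ?_, ?_⟩
  · have h : poly (weierstrass a) = Q44.DA.FW (a 0) (a 1) (a 2) :=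
      Q44.DA.toP_weiW (a 0) (a 1) (a 2)
    rw [h]
    exact Q44.DA.mq_self a
  · exact (under_iff _ _).2 (Q44.DA.cw_self (a 0) (a 1) (a 2))
  · have h0 : (a j - a i) * (a l - a i) ≠ 0 := mul_ne_zero
      (sub_ne_zero.2 fun h => hij (ha.distinct h).symm) (sub_ne_zero.2 fun h => hil (ha.distinct h).symm)
    rw [← hbq] at h0
    exact over_quartic i j l hij hil hjl (left_ne_zero_of_mul h0) (right_ne_zero_of_mul h0) hbq.symm
  · have := Q44.LD.bet_lt
    have h1 : beta = Pool.Agent.Q269.MF.bet := rfl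
    rw [h1]
    linarith
  · intro m a S ha hne hS D₀ hD₀
    let E : Q44.JQ.X.Ey (Fin m) := ⟨a, fun k => (ha k).distinct, fun k => (ha k).sum,
      fun k => (ha k).noCyclicFour, fun k l hkl σ => by
        have h := hne k l hkl
        unfold Matched at h
        push Not at h
        exact h σ, S, ⟨hS.prime, hS.two⟩, hS.bad⟩
    obtain ⟨h6, h7, -⟩ := (E.out Q44.JQ.X.factsY).2 D₀ hD₀ (fun D => Squarefree D ∧ E.Cond D₀ D)
      fun _ => Iff.rfl
    refine ⟨h7, fun X D hD k => h6 D ⟨hD.2.1, hD.2.2⟩ k, fun ε hε => ?_⟩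
    have hfin : ∀ X, (Class S D₀ X).Finite := fun X =>
      (Set.finite_Icc (-(X : ℤ)) X).subset fun D hD => abs_le.1 hD.1
    have key : ∀ (G : (Fin m → ℕ) → Prop) (v : ℝ), HasSum (fun e : Fin m → ℕ =>
        (if G e then (1 : ℝ) else 0) * ∏ k, Q44.JQ.lawc ((r (a k) D₀ : ℕ) : ZMod 2) (e k)) v →
        ∀ᶠ X : ℕ in atTop, |share (Class S D₀ X) (fun D => G fun k => r (a k) D) - v| ≤ ε := by
      intro G v hv
      have h8 : Tendsto (fun X : ℕ => share (Class S D₀ X) fun D => G fun k => r (a k) D) atTop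
          (𝓝 v) := Q44.DA.lawA E hD₀ hv
      have h9 := Metric.tendsto_atTop.1 h8 ε hε
      obtain ⟨X₀, h9⟩ := h9
      filter_upwards [eventually_ge_atTop X₀] with X hX
      exact (h9 X hX).le
    have k1 : ∀ B : Finset (Fin m), ∀ᶠ X : ℕ in atTop, B ⊆ evens (fun k => r (a k) D₀) →
        |share (Class S D₀ X) (fun D => ∀ k, (r (a k) D = 0 ↔ k ∈ B)) -
          beta ^ B.card * (1 - beta) ^ ((evens fun k => r (a k) D₀).card - B.card)| ≤ ε := by
      intro B
      by_cases hB : B ⊆ evens (fun k => r (a k) D₀)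
      · filter_upwards [key (fun x => ∀ k, (x k = 0 ↔ k ∈ B)) _
          (sum_of (e₀ := fun k => r (a k) D₀) (Or.inl ⟨B, hB, fun _ => Iff.rfl, rfl⟩))] with X hX _
        exact hX
      · exact Eventually.of_forall fun X h => absurd h hB
    have k2 : ∀ B : Finset (Fin m), ∀ᶠ X : ℕ in atTop, B ⊆ evens (fun k => r (a k) D₀) →
        |share (Class S D₀ X) (fun D => ∀ k ∈ B, r (a k) D = 0) - beta ^ B.card| ≤ ε := by
      intro B
      by_cases hB : B ⊆ evens (fun k => r (a k) D₀)
      · filter_upwards [key (fun x => ∀ k ∈ B, x k = 0) _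
          (sum_of (e₀ := fun k => r (a k) D₀) (Or.inr (Or.inl ⟨B, hB, fun _ => Iff.rfl, rfl⟩)))]
          with X hX _
        exact hX
      · exact Eventually.of_forall fun X h => absurd h hB
    have k3 : ∀ J : Finset (Fin (m + 1)), ∀ᶠ X : ℕ in atTop,
        |share (Class S D₀ X) (fun D => Hit J (Finset.univ.filter fun k => r (a k) D = 0).card) -
          ∑ B ∈ (evens fun k => r (a k) D₀).powerset, (if Hit J B.card then
          beta ^ B.card * (1 - beta) ^ ((evens fun k => r (a k) D₀).card - B.card) else 0)| ≤ ε := by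
      intro J
      exact key (fun x => Hit J (Finset.univ.filter fun k => x k = 0).card) _
          (sum_of (e₀ := fun k => r (a k) D₀) (Or.inr (Or.inr ⟨J, fun _ => Iff.rfl, rfl⟩)))
    filter_upwards [eventually_all.2 k1, eventually_all.2 k2, eventually_all.2 k3] with X g1 g2 g3
    refine law_of hφ (hfin X) (e := fun D k => r (a k) D) (fun D hD k => ?_) ?_
    · have hD0 : D ≠ 0 := hD.2.1.ne_zero
      exact ⟨twist_curve (ha k).toIsCurve hD0, (facts (ha k) hD0).2⟩
    · rintro G v (⟨B, hB, hG, rfl⟩ | ⟨B, hB, hG, rfl⟩ | ⟨J, hG, rfl⟩)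
      · rw [share_congr (Q := fun D => ∀ k, (r (a k) D = 0 ↔ k ∈ B)) fun D _ => hG _]
        exact g1 B hB
      · rw [share_congr (Q := fun D => ∀ k ∈ B, r (a k) D = 0) fun D _ => hG _]
        exact g2 B hB
      · rw [share_congr (Q := fun D => Hit J (Finset.univ.filter fun k => r (a k) D = 0).card)
          fun D _ => hG _]
        exact g3 J
  · have H := Q44.LD.F.factsZ
    obtain ⟨𝒩, g1, g2⟩ := Q44.LD.one_setN H
    refine ⟨𝒩, Q44.LD.alm_density g1, ?_⟩
    intro n m a I S hI hS ε hε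
    have hv := val hI hS
    have L := Q44.JQ.LB.of H.lbl hv.E.hT
    filter_upwards [g2 n m a I S hv 1 ε zero_le_one hε, eventually_ne_atTop 0] with N g3 hN hN' t₀ h₀
    obtain ⟨g4, g5⟩ := g3 hN'
    obtain ⟨g6, g7⟩ := Q44.LD.tn_card L H.lsq hN g4 h₀
    refine ⟨g6, fun hne => ⟨g7 hne, fun t ht k => ?_, ?_⟩⟩
    · exact Q44.LD.par_all H hv h₀ (fun i => (ht i).1) (fun i => (ht i).2.2) k
    · have hT : Tuples S t₀ N = Q44.LD.Tp S t₀ (Q44.LD.rad N) := Q44.LD.tn_eq S t₀ hN
      have hfin : (Tuples S t₀ N).Finite := by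
        rw [hT]
        exact Q44.LD.tp_fin (T := S) (Q44.LD.rad_pos N).ne' t₀
      refine law_of hφ hfin (e := fun t k => r (a k) (∏ i ∈ I k, t i)) (fun t ht k => ?_) ?_
      · have ht0 : ∏ i ∈ I k, t i ≠ 0 := Finset.prod_ne_zero_iff.2 fun i _ => (ht i).1.ne_zero
        exact ⟨twist_curve (hI.model k).toIsCurve ht0, (facts (hI.model k) ht0).2⟩
      · intro G v hG
        have hne' : (Q44.LD.Tp S t₀ (Q44.LD.rad N)).Nonempty := by
          rw [← hT]
          exact hne
        rw [hT]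
        exact Q44.DA.lawB (Q44.LD.rad_pos N) g5 h₀ hne'
          (sum_of (e₀ := fun k => r (a k) (∏ i ∈ I k, t₀ i)) hG)

end Pool.Agent.Results.MP_d6ddbd_nt.CurvesOverQuadraticTwists
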