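import Mathlib
import Pool.Agent.Q1.DAS

/-!
# A partial algorithm that decides almost all the curves at almost all members of a thin sequence

We use the partial algorithm of `QuarticsByFiniteChecks`. For an integer `t` let `A = D(t) u₀(t)`,
`B = D(t) u₁(t)`, `E_t : y² = x (x - A) (x - B)`, and let `ELS A B` be the set of the squarefree
divisors `b` of `A B` for which `C : y² = b x⁴ - (A + B) x² + A B / b` has points everywhere
locally. Let `x_(n+1) ≥ x_n ^ (1 + δ)`. For almost every `α` the algorithm decides, correctly, all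
but a proportion `(log t) ^ (-η)` of the curves of `ELS A B` for all `t = ⌊α x_n⌋`, `n` outside of a
set of density zero.
-/

set_option autoImplicit false

namespace Pool.Agent.Results.MP_d6ddbd_nt.DecidedAlmostAlways

open Finset Polynomial Filter MeasureTheory

open Pool.Agent.Results.MP_d6ddbd_nt.QuarticsByFiniteChecks (Zeros Balanced u κ)

open Pool.Agent.Q1.DAS (Few)

open Classical in
/-- **Theorem.** There is a partial computable function `φ` from the lists of lists of integers
(polynomials `f(x, y)`) to `{true, false}` such that: if `φ(f)` is defined, then it is `true` if and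
only if `f` has infinitely many rational zeros; and the following holds. Let
`u_k = a_k ∏_{i < n_k} f_{k,i}`, `k = 0, 1, 2`, with `u₀ - u₁ = u₂`, and `D = c ∏_{i < m} g_i`, where
`a_k`, `c` are nonzero and the `n₀ + n₁ + n₂ + m` polynomials `f_{k,i}`, `g_i` with integer
coefficients are irreducible of positive degree and pairwise non-associated; assume the balance
condition. Let `0 < η < κ log 2`, with the constant `κ` of `QuarticsByFiniteChecks`, and let `δ > 0`.
For every sequence `x_n → ∞` with `x_(n+1) ≥ x_n ^ (1 + δ)` from some `n` on and almost every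
real `α`, the set of the `n` such that `Few φ η` does not hold at `⌊α x_n⌋` has density zero. -/
theorem result :
    ∃ φ : List (List ℤ) →. Bool, Partrec φ ∧
    (∀ L, ∀ r ∈ φ L, (r = true ↔ (Zeros L).Infinite)) ∧
    ∀ (n : Fin 3 → ℕ) (m : ℕ) (a : Fin 3 → ℤ) (f : ∀ k : Fin 3, Fin (n k) → ℤ[X])
    (c : ℤ) (g : Fin m → ℤ[X]) (_ : ∀ k, a k ≠ 0) (_ : c ≠ 0)
    (_ : ∀ k i, Irreducible (f k i) ∧ 0 < (f k i).natDegree)
    (_ : ∀ i, Irreducible (g i) ∧ 0 < (g i).natDegree)
    (_ : ∀ k i l j, (⟨k, i⟩ : Σ k : Fin 3, Fin (n k)) ≠ ⟨l, j⟩ → ¬ Associated (f k i) (f l j))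
    (_ : ∀ i j, i ≠ j → ¬ Associated (g i) (g j)) (_ : ∀ k i j, ¬ Associated (f k i) (g j))
    (_ : u a f 0 - u a f 1 = u a f 2) (_ : Balanced a f c g)
    (η δ : ℝ) (_ : 0 < η) (_ : η < κ a f c g * Real.log 2) (_ : 0 < δ),
    ∀ x : ℕ → ℝ, Tendsto x atTop atTop → (∀ᶠ n in atTop, x n ^ (1 + δ) ≤ x (n + 1)) →
      ∀ᵐ α : ℝ, ∀ ε : ℝ, 0 < ε → ∀ᶠ N : ℕ in atTop,
        (((range N).filter (fun n => ¬ Few φ a f c g η ⌊α * x n⌋)).card : ℝ) ≤ ε * N := by
  obtain ⟨φ, hφ1, hφ2, hφ⟩ := Pool.Agent.Q1.DAS.all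
  exact ⟨φ, hφ1, hφ2, fun n m a f c g ha hc hf hg hff hgg hfg hu hb η δ hη hηκ hδ =>
    (hφ n m a f c g ha hc hf hg hff hgg hfg hu hb η δ hη hηκ hδ).1⟩

end Pool.Agent.Results.MP_d6ddbd_nt.DecidedAlmostAlways
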